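import Pool.Agent.Y439.Col.Tools

set_option autoImplicit false

/-!
The kinds of the triples of vertices coloured with `0, 1, 2`, and weights for them.
-/

namespace Pool.Agent.X45.Fk

/-- The kind of a triple of colours: `001`, `002`, `011`, `022`, `112`, `122`, `012` have the
numbers `0, …, 6`, and `000`, `111`, `222` the numbers `7, 8, 9`. All values in one number. -/
def kk (x y z : ℕ) : ℕ :=
  Nat.mod (Nat.shiftRight 0x953546361546482620361620107 (Nat.mul 4 (Nat.add (Nat.mul 9 x) (Nat.add (Nat.mul 3 y) z)))) 16

/-- The weight of a triple: `3` for an edge with one colour, `1` for an edge of kind `p` or `q`. -/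
def wk (p q x y z b : ℕ) : ℕ :=
  bif Nat.beq b 1 then
    (bif Nat.ble 7 (kk x y z) then 3 else bif Nat.beq (kk x y z) p || Nat.beq (kk x y z) q then 1 else 0)
  else 0

end Pool.Agent.X45.Fk
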