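import Pool.Agent.X45.Ex.Tur
import Pool.Agent.X45.Fk.Kd

set_option autoImplicit false

/-!
From the inequality for coloured 5-tuples to the numbers of the edges of two mixed kinds and of the
inner edges.
-/

namespace Pool.Agent.X45.Fk
open Finset Pool.Agent.Y439.Col Pool.Agent.X45.Ex

section
variable {V : Type} [DecidableEq V]

/-- The members of `H` with two vertices in the class `i` and one in the class `j`. -/
def kindE (H : Finset (Finset V)) (g : V → Fin 3) (i j : Fin 3) : Finset (Finset V) :=
  H.filter fun t => (t.filter fun x => g x = i).card = 2 ∧ (t.filter fun x => g x = j).card = 1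

/-- The number of the kind with two colours `i` and one colour `j`. -/
def code (i j : Fin 3) : ℕ :=
  match i, j with
  | 0, 1 => 0 | 0, 2 => 1 | 1, 0 => 2 | 2, 0 => 3 | 1, 2 => 4 | 2, 1 => 5
  | _, _ => 10

theorem kk_code : ∀ x y z i j : Fin 3, i ≠ j → kk x y z = code i j →
    cnt x y z i = 2 ∧ cnt x y z j = 1 := by decide

theorem kk_inner : ∀ x y z : Fin 3, 7 ≤ kk x y z → x = y ∧ y = z := by decide

omit [DecidableEq V] in
theorem mem_kindE {H : Finset (Finset V)} {g : V → Fin 3} {i j : Fin 3} {t : Finset V} :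
    t ∈ kindE H g i j ↔ t ∈ H ∧ (t.filter fun x => g x = i).card = 2 ∧
      (t.filter fun x => g x = j).card = 1 := by
  unfold kindE
  rw [mem_filter]

theorem wk_le (i j k l : Fin 3) (hij : i ≠ j) (hkl : k ≠ l) (H : Finset (Finset V))
    (hH : ∀ e ∈ H, e.card = 3) (g : V → Fin 3) (a b d : V) :
    wk (code i j) (code k l) (g a) (g b) (g d) (tri H a b d) ≤
      tri (kindE H g i j) a b d + tri (kindE H g k l) a b d + 3 * tri (innerE H g) a b d := by
  classical
  by_cases hm : ({a, b, d} : Finset V) ∈ H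
  · have ht : tri H a b d = 1 := tri_eq_one.2 hm
    obtain ⟨hab, had, hbd⟩ := distinct_of_mem hH hm
    rw [ht]
    have e : wk (code i j) (code k l) (g a) (g b) (g d) 1 =
        (bif Nat.ble 7 (kk (g a) (g b) (g d)) then 3 else
          bif Nat.beq (kk (g a) (g b) (g d)) (code i j) || Nat.beq (kk (g a) (g b) (g d)) (code k l)
            then 1 else 0) := rfl
    rw [e]
    by_cases h0 : 7 ≤ kk (g a) (g b) (g d)
    · have h1 : tri (innerE H g) a b d = 1 := by
        rw [tri_eq_one]
        refine mem_innerE.2 ⟨hm, ?_⟩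
        obtain ⟨e1, e2⟩ := kk_inner _ _ _ h0
        refine ⟨g a, fun x hx => ?_⟩
        simp only [mem_insert, mem_singleton] at hx
        rcases hx with rfl | rfl | rfl
        · rfl
        · exact e1.symm
        · exact e2.symm.trans e1.symm
      rw [Nat.ble_eq_true_of_le h0, h1]
      simp only [cond_true]
      omega
    · have hb : Nat.ble 7 (kk (g a) (g b) (g d)) = false := by
        rcases hb : Nat.ble 7 (kk (g a) (g b) (g d)) with _ | _
        · rfl
        · exact absurd (Nat.le_of_ble_eq_true hb) h0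
      rw [hb]
      simp only [cond_false]
      rcases hc : (Nat.beq (kk (g a) (g b) (g d)) (code i j) ||
          Nat.beq (kk (g a) (g b) (g d)) (code k l)) with _ | _
      · exact Nat.zero_le _
      · rcases (Bool.or_eq_true _ _).mp hc with h | h
        · obtain ⟨c1, c2⟩ := kk_code _ _ _ _ _ hij (Nat.eq_of_beq_eq_true h)
          have h1 : tri (kindE H g i j) a b d = 1 := by
            rw [tri_eq_one]
            refine mem_kindE.2 ⟨hm, ?_, ?_⟩
            · rw [card_filter3 g hab had hbd]; exact c1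
            · rw [card_filter3 g hab had hbd]; exact c2
          rw [h1]
          simp only [cond_true]
          omega
        · obtain ⟨c1, c2⟩ := kk_code _ _ _ _ _ hkl (Nat.eq_of_beq_eq_true h)
          have h1 : tri (kindE H g k l) a b d = 1 := by
            rw [tri_eq_one]
            refine mem_kindE.2 ⟨hm, ?_, ?_⟩
            · rw [card_filter3 g hab had hbd]; exact c1
            · rw [card_filter3 g hab had hbd]; exact c2
          rw [h1]
          simp only [cond_true]
          omega
  · have ht : tri H a b d = 0 := tri_eq_zero.2 hm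
    rw [ht]
    exact Nat.zero_le _

variable [Fintype V]

/-- The inequality in terms of the three numbers. -/
theorem bridge (i j k l : Fin 3) (hij : i ≠ j) (hkl : k ≠ l) (L : ℕ) (hL : 0 < L)
    (H : Finset (Finset V)) (hH : ∀ e ∈ H, e.card = 3) (g : V → Fin 3) (pt : Pat)
    (hpt : ∀ C0 C1 C2 C3 C4 b0 b1 b2 b3 b4 b5 b6 b7 b8 b9 : ℕ,
      pt C0 C1 C2 C3 C4 b0 b1 b2 b3 b4 b5 b6 b7 b8 b9 = wk (code i j) (code k l) C0 C1 C2 b0)
    (h : 90 * (72 * L) * (Fintype.card V ^ 2 * ∑ a, ∑ b, ∑ d, tri H a b d) ≤
      50 * (72 * L) * Fintype.card V ^ 5 +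
        120 * (5 * L) * ∑ x : Fin 5 → V,
          pg pt (fun v => (g v : ℕ)) (tri H) (x 0) (x 1) (x 2) (x 3) (x 4)) :
    54 * H.card ≤ 5 * (Fintype.card V ^ 3 + (kindE H g i j).card + (kindE H g k l).card +
      3 * (innerE H g).card) := by
  classical
  rcases Nat.eq_zero_or_pos (Fintype.card V) with h0 | hpos
  · have hV : IsEmpty V := Fintype.card_eq_zero_iff.1 h0
    have : H = ∅ := by
      rw [eq_empty_iff_forall_notMem]
      intro e he
      have h1 := hH e he
      have h2 : e = ∅ := by
        rw [eq_empty_iff_forall_notMem]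
        intro x _
        exact hV.elim x
      rw [h2] at h1
      simp at h1
    rw [this]
    simp
  rw [sum_tri H hH] at h
  have h1 : ∀ x : Fin 5 → V,
      pg pt (fun v => (g v : ℕ)) (tri H) (x 0) (x 1) (x 2) (x 3) (x 4) =
      (fun a b d : V => wk (code i j) (code k l) (g a) (g b) (g d) (tri H a b d))
        (x 0) (x 1) (x 2) := by
    intro x
    unfold pg
    rw [hpt]
  rw [sum_congr rfl fun x _ => h1 x,
    e_sum (fun a b d : V => wk (code i j) (code k l) (g a) (g b) (g d) (tri H a b d))] at h
  have h2 : ∑ a, ∑ b, ∑ d, wk (code i j) (code k l) (g a) (g b) (g d) (tri H a b d) ≤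
      6 * ((kindE H g i j).card + (kindE H g k l).card + 3 * (innerE H g).card) := by
    calc ∑ a, ∑ b, ∑ d, wk (code i j) (code k l) (g a) (g b) (g d) (tri H a b d)
        ≤ ∑ a, ∑ b, ∑ d, (tri (kindE H g i j) a b d + tri (kindE H g k l) a b d +
            3 * tri (innerE H g) a b d) :=
          sum_le_sum fun a _ => sum_le_sum fun b _ => sum_le_sum fun d _ =>
            wk_le i j k l hij hkl H hH g a b d
      _ = (∑ a, ∑ b, ∑ d, tri (kindE H g i j) a b d) + (∑ a, ∑ b, ∑ d, tri (kindE H g k l) a b d) +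
            3 * (∑ a, ∑ b, ∑ d, tri (innerE H g) a b d) := by
          simp only [sum_add_distrib, mul_sum]
      _ = _ := by
          rw [sum_tri _ (fun e he => hH e (mem_kindE.1 he).1),
            sum_tri _ (fun e he => hH e (mem_kindE.1 he).1),
            sum_tri (innerE H g) (fun e he => hH e (mem_innerE.1 he).1)]
          ring
  have h3 := Nat.mul_le_mul_left (120 * (5 * L)) (Nat.mul_le_mul_left (Fintype.card V ^ 2) h2)
  have h4 : Fintype.card V ^ 2 * (720 * L) * (54 * H.card) ≤
      Fintype.card V ^ 2 * (720 * L) * (5 * (Fintype.card V ^ 3 + (kindE H g i j).card +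
        (kindE H g k l).card + 3 * (innerE H g).card)) := by
    calc Fintype.card V ^ 2 * (720 * L) * (54 * H.card)
        = 90 * (72 * L) * (Fintype.card V ^ 2 * (6 * H.card)) := by ring
      _ ≤ _ := h
      _ ≤ _ := Nat.add_le_add_left h3 _
      _ = _ := by ring
  exact Nat.le_of_mul_le_mul_left h4 (by positivity)

omit [Fintype V] [DecidableEq V] in
/-- Renaming the classes. -/
theorem kindE_perm (H : Finset (Finset V)) (g : V → Fin 3) (s : Equiv.Perm (Fin 3)) (i j : Fin 3) :
    kindE H (fun x => s (g x)) (s i) (s j) = kindE H g i j := by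
  unfold kindE
  simp only [EmbeddingLike.apply_eq_iff_eq]

omit [Fintype V] [DecidableEq V] in
theorem innerE_perm (H : Finset (Finset V)) (g : V → Fin 3) (s : Equiv.Perm (Fin 3)) :
    innerE H (fun x => s (g x)) = innerE H g := by
  ext t
  rw [mem_innerE, mem_innerE]
  refine and_congr_right fun _ => ⟨?_, ?_⟩
  · rintro ⟨p, hp⟩
    exact ⟨s.symm p, fun x hx => by rw [← hp x hx]; simp⟩
  · rintro ⟨p, hp⟩
    exact ⟨s p, fun x hx => by simp only [hp x hx]⟩

theorem exists_perm : ∀ i j k l : Fin 3, i ≠ j → k ≠ l → (i, j) ≠ (k, l) →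
    ∃ s : Equiv.Perm (Fin 3), (s i, s j, s k, s l) ∈
      ([(0, 1, 1, 0), (1, 0, 0, 1), (0, 1, 0, 2), (0, 2, 0, 1), (0, 1, 2, 1), (2, 1, 0, 1),
        (0, 2, 1, 0), (1, 0, 0, 2)] : List (Fin 3 × Fin 3 × Fin 3 × Fin 3)) := by
  decide +kernel

end

end Pool.Agent.X45.Fk
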