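import Pool.Agent.X45.Fk.P1Data
import Pool.Agent.X45.Fk.Kd

set_option autoImplicit false
set_option maxRecDepth 100000

namespace Pool.Agent.X45.Fk.P1
open Finset Pool.Agent.Y439.Col Pool.Agent.X45.Abs Pool.Agent.X45.Fk

theorem psd_0 : psd 24 1 (rows 0) = true := by decide +kernel

theorem psd_1 : psd 24 1 (rows 1) = true := by decide +kernel

theorem psd_2 : psd 24 1 (rows 2) = true := by decide +kernel

theorem psd_3 : psd 24 1 (rows 3) = true := by decide +kernel

theorem psd_4 : psd 24 1 (rows 4) = true := by decide +kernel

theorem psd_5 : psd 24 1 (rows 5) = true := by decide +kernel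

theorem psd_8 : psd 24 1 (rows 8) = true := by decide +kernel

theorem psd_9 : psd 24 1 (rows 9) = true := by decide +kernel

theorem psd_10 : psd 24 1 (rows 10) = true := by decide +kernel

theorem psd_11 : psd 24 1 (rows 11) = true := by decide +kernel

theorem psd_16 : psd 24 1 (rows 16) = true := by decide +kernel

theorem psd_17 : psd 24 1 (rows 17) = true := by decide +kernel

theorem psd_26 : psd 24 1 (rows 26) = true := by decide +kernel

theorem psd_27 : psd 24 1 (rows 27) = true := by decide +kernel

theorem psd_28 : psd 24 1 (rows 28) = true := by decide +kernel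

theorem psd_29 : psd 24 1 (rows 29) = true := by decide +kernel

theorem psd_34 : psd 24 1 (rows 34) = true := by decide +kernel

theorem psd_35 : psd 24 1 (rows 35) = true := by decide +kernel

theorem psd_52 : psd 24 1 (rows 52) = true := by decide +kernel

theorem psd_53 : psd 24 1 (rows 53) = true := by decide +kernel

theorem psd_54 : psd 24 1 (rows 54) = true := by decide +kernel

theorem psd_55 : psd 24 1 (rows 55) = true := by decide +kernel

theorem psd_56 : psd 24 1 (rows 56) = true := by decide +kernel

theorem psd_all : ∀ t < 57, psd 24 1 (rows t) = true := by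
  intro t ht
  interval_cases t
  · exact psd_0
  · exact psd_1
  · exact psd_2
  · exact psd_3
  · exact psd_4
  · exact psd_5
  · exact rfl
  · exact rfl
  · exact psd_8
  · exact psd_9
  · exact psd_10
  · exact psd_11
  · exact rfl
  · exact rfl
  · exact rfl
  · exact rfl
  · exact psd_16
  · exact psd_17
  · exact rfl
  · exact rfl
  · exact rfl
  · exact rfl
  · exact rfl
  · exact rfl
  · exact rfl
  · exact rfl
  · exact psd_26
  · exact psd_27
  · exact psd_28
  · exact psd_29
  · exact rfl
  · exact rfl
  · exact rfl
  · exact rfl
  · exact psd_34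
  · exact psd_35
  · exact rfl
  · exact rfl
  · exact rfl
  · exact rfl
  · exact rfl
  · exact rfl
  · exact rfl
  · exact rfl
  · exact rfl
  · exact rfl
  · exact rfl
  · exact rfl
  · exact rfl
  · exact rfl
  · exact rfl
  · exact rfl
  · exact psd_52
  · exact psd_53
  · exact psd_54
  · exact psd_55
  · exact psd_56

/-- The table for one type. -/
def tabT (t : ℕ) : Bool := allb 24 fun f => allb 24 fun g =>
  decide (Int.ofNat (val t f g) = ent (rows t) f g + ((2097152 : ℕ) : ℤ))

theorem tab_0 : tabT 0 = true := by decide +kernel

theorem tab_1 : tabT 1 = true := by decide +kernel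

theorem tab_2 : tabT 2 = true := by decide +kernel

theorem tab_3 : tabT 3 = true := by decide +kernel

theorem tab_4 : tabT 4 = true := by decide +kernel

theorem tab_5 : tabT 5 = true := by decide +kernel

theorem tab_6 : tabT 6 = true := by decide +kernel

theorem tab_7 : tabT 7 = true := by decide +kernel

theorem tab_8 : tabT 8 = true := by decide +kernel

theorem tab_9 : tabT 9 = true := by decide +kernel

theorem tab_10 : tabT 10 = true := by decide +kernel

theorem tab_11 : tabT 11 = true := by decide +kernel

theorem tab_12 : tabT 12 = true := by decide +kernel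

theorem tab_13 : tabT 13 = true := by decide +kernel

theorem tab_14 : tabT 14 = true := by decide +kernel

theorem tab_15 : tabT 15 = true := by decide +kernel

theorem tab_16 : tabT 16 = true := by decide +kernel

theorem tab_17 : tabT 17 = true := by decide +kernel

theorem tab_18 : tabT 18 = true := by decide +kernel

theorem tab_19 : tabT 19 = true := by decide +kernel

theorem tab_20 : tabT 20 = true := by decide +kernel

theorem tab_21 : tabT 21 = true := by decide +kernel

theorem tab_22 : tabT 22 = true := by decide +kernel

theorem tab_23 : tabT 23 = true := by decide +kernel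

theorem tab_24 : tabT 24 = true := by decide +kernel

theorem tab_25 : tabT 25 = true := by decide +kernel

theorem tab_26 : tabT 26 = true := by decide +kernel

theorem tab_27 : tabT 27 = true := by decide +kernel

theorem tab_28 : tabT 28 = true := by decide +kernel

theorem tab_29 : tabT 29 = true := by decide +kernel

theorem tab_30 : tabT 30 = true := by decide +kernel

theorem tab_31 : tabT 31 = true := by decide +kernel

theorem tab_32 : tabT 32 = true := by decide +kernel

theorem tab_33 : tabT 33 = true := by decide +kernel

theorem tab_34 : tabT 34 = true := by decide +kernel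

theorem tab_35 : tabT 35 = true := by decide +kernel

theorem tab_36 : tabT 36 = true := by decide +kernel

theorem tab_37 : tabT 37 = true := by decide +kernel

theorem tab_38 : tabT 38 = true := by decide +kernel

theorem tab_39 : tabT 39 = true := by decide +kernel

theorem tab_40 : tabT 40 = true := by decide +kernel

theorem tab_41 : tabT 41 = true := by decide +kernel

theorem tab_42 : tabT 42 = true := by decide +kernel

theorem tab_43 : tabT 43 = true := by decide +kernel

theorem tab_44 : tabT 44 = true := by decide +kernel

theorem tab_45 : tabT 45 = true := by decide +kernel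

theorem tab_46 : tabT 46 = true := by decide +kernel

theorem tab_47 : tabT 47 = true := by decide +kernel

theorem tab_48 : tabT 48 = true := by decide +kernel

theorem tab_49 : tabT 49 = true := by decide +kernel

theorem tab_50 : tabT 50 = true := by decide +kernel

theorem tab_51 : tabT 51 = true := by decide +kernel

theorem tab_52 : tabT 52 = true := by decide +kernel

theorem tab_53 : tabT 53 = true := by decide +kernel

theorem tab_54 : tabT 54 = true := by decide +kernel

theorem tab_55 : tabT 55 = true := by decide +kernel

theorem tab_56 : tabT 56 = true := by decide +kernel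

theorem tab_all : ∀ t < 57, tabT t = true := by
  intro t ht
  interval_cases t
  · exact tab_0
  · exact tab_1
  · exact tab_2
  · exact tab_3
  · exact tab_4
  · exact tab_5
  · exact tab_6
  · exact tab_7
  · exact tab_8
  · exact tab_9
  · exact tab_10
  · exact tab_11
  · exact tab_12
  · exact tab_13
  · exact tab_14
  · exact tab_15
  · exact tab_16
  · exact tab_17
  · exact tab_18
  · exact tab_19
  · exact tab_20
  · exact tab_21
  · exact tab_22
  · exact tab_23
  · exact tab_24
  · exact tab_25
  · exact tab_26
  · exact tab_27
  · exact tab_28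
  · exact tab_29
  · exact tab_30
  · exact tab_31
  · exact tab_32
  · exact tab_33
  · exact tab_34
  · exact tab_35
  · exact tab_36
  · exact tab_37
  · exact tab_38
  · exact tab_39
  · exact tab_40
  · exact tab_41
  · exact tab_42
  · exact tab_43
  · exact tab_44
  · exact tab_45
  · exact tab_46
  · exact tab_47
  · exact tab_48
  · exact tab_49
  · exact tab_50
  · exact tab_51
  · exact tab_52
  · exact tab_53
  · exact tab_54
  · exact tab_55
  · exact tab_56

theorem good : Abs.Good val rows 2097152 where
  hval := fun t ht f hf g hg =>
    of_decide_eq_true (allb_elim (allb_elim (tab_all t ht) f hf) g hg)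
  hpsd := psd_all

/-- No class is assumed to be independent. -/
def ind (_ : ℕ) : Bool := false

/-- The weights. -/
def pt : Pat := fun x y z _ _ b _ _ _ _ _ _ _ _ _ => wk 0 2 x y z b

theorem c00000 : Abs.chk ind val 72000 160886400 5000 pt 0 0 0 0 0 = true := by decide +kernel

theorem c00001 : Abs.chk ind val 72000 160886400 5000 pt 0 0 0 0 1 = true := by decide +kernel

theorem c00011 : Abs.chk ind val 72000 160886400 5000 pt 0 0 0 1 1 = true := by decide +kernel

theorem c00111 : Abs.chk ind val 72000 160886400 5000 pt 0 0 1 1 1 = true := by decide +kernel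

theorem c01111 : Abs.chk ind val 72000 160886400 5000 pt 0 1 1 1 1 = true := by decide +kernel

theorem c11111 : Abs.chk ind val 72000 160886400 5000 pt 1 1 1 1 1 = true := by decide +kernel

theorem c00002 : Abs.chk ind val 72000 160886400 5000 pt 0 0 0 0 2 = true := by decide +kernel

theorem c00012 : Abs.chk ind val 72000 160886400 5000 pt 0 0 0 1 2 = true := by decide +kernel

theorem c00112 : Abs.chk ind val 72000 160886400 5000 pt 0 0 1 1 2 = true := by decide +kernel

theorem c01112 : Abs.chk ind val 72000 160886400 5000 pt 0 1 1 1 2 = true := by decide +kernel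

theorem c11112 : Abs.chk ind val 72000 160886400 5000 pt 1 1 1 1 2 = true := by decide +kernel

theorem c00022 : Abs.chk ind val 72000 160886400 5000 pt 0 0 0 2 2 = true := by decide +kernel

theorem c00122 : Abs.chk ind val 72000 160886400 5000 pt 0 0 1 2 2 = true := by decide +kernel

theorem c01122 : Abs.chk ind val 72000 160886400 5000 pt 0 1 1 2 2 = true := by decide +kernel

theorem c11122 : Abs.chk ind val 72000 160886400 5000 pt 1 1 1 2 2 = true := by decide +kernel

theorem c00222 : Abs.chk ind val 72000 160886400 5000 pt 0 0 2 2 2 = true := by decide +kernel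

theorem c01222 : Abs.chk ind val 72000 160886400 5000 pt 0 1 2 2 2 = true := by decide +kernel

theorem c11222 : Abs.chk ind val 72000 160886400 5000 pt 1 1 2 2 2 = true := by decide +kernel

theorem c02222 : Abs.chk ind val 72000 160886400 5000 pt 0 2 2 2 2 = true := by decide +kernel

theorem c12222 : Abs.chk ind val 72000 160886400 5000 pt 1 2 2 2 2 = true := by decide +kernel

theorem c22222 : Abs.chk ind val 72000 160886400 5000 pt 2 2 2 2 2 = true := by decide +kernel

theorem chk (C0 C1 C2 C3 C4 : ℕ) (h01 : C0 ≤ C1) (h12 : C1 ≤ C2) (h23 : C2 ≤ C3) (h34 : C3 ≤ C4)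
    (h4 : C4 < 3) : Abs.chk ind val 72000 160886400 5000 pt C0 C1 C2 C3 C4 = true := by
  interval_cases C4 <;> interval_cases C3 <;> interval_cases C2 <;> interval_cases C1 <;>
    interval_cases C0
  · exact c00000
  · exact c00001
  · exact c00011
  · exact c00111
  · exact c01111
  · exact c11111
  · exact c00002
  · exact c00012
  · exact c00112
  · exact c01112
  · exact c11112
  · exact c00022
  · exact c00122
  · exact c01122
  · exact c11122
  · exact c00222
  · exact c01222
  · exact c11222
  · exact c02222
  · exact c12222
  · exact c22222

theorem final {V : Type*} [Fintype V] (c : V → ℕ) (hc : ∀ x, c x < 3) (e : V → V → V → ℕ)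
    (e1 : ∀ x y z, e x y z ≤ 1)
    (s1 : ∀ x y z, e x y z = e y x z) (s2 : ∀ x y z, e x y z = e x z y)
    (hK : ∀ x y z w, e x y z = 0 ∨ e x y w = 0 ∨ e x z w = 0 ∨ e y z w = 0) :
    90 * 72000 * (Fintype.card V ^ 2 * ∑ a, ∑ b, ∑ d, e a b d) ≤
      50 * 72000 * Fintype.card V ^ 5 +
        120 * 5000 * ∑ x : Fin 5 → V, pg pt c e (x 0) (x 1) (x 2) (x 3) (x 4) := by
  have h := Abs.main good ind 72000 160886400 5000 3 (by norm_num) pt chk c hc e e1 s1 s2
    (fun _ _ _ h => absurd h Bool.false_ne_true) hK
  omega

end Pool.Agent.X45.Fk.P1
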