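import Pool.Agent.X45.Fk.Br
import Pool.Agent.X45.Fk.P1Check
import Pool.Agent.X45.Fk.P2Check
import Pool.Agent.X45.Fk.P3Check
import Pool.Agent.X45.Fk.P4Check

set_option autoImplicit false

/-!
The bound with two mixed kinds and the inner edges.
-/

namespace Pool.Agent.X45.Fk
open Finset Pool.Agent.Y439.Col Pool.Agent.X45.Ex

variable {V : Type} [DecidableEq V] [Fintype V]

/-- The bound for the pairs of kinds `i, j` and `k, l`. -/
def Bd (H : Finset (Finset V)) (g : V → Fin 3) (i j k l : Fin 3) : Prop :=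
  54 * H.card ≤ 5 * (Fintype.card V ^ 3 + (kindE H g i j).card + (kindE H g k l).card +
      3 * (innerE H g).card)

theorem Bd.symm {H : Finset (Finset V)} {g : V → Fin 3} {i j k l : Fin 3} (h : Bd H g i j k l) :
    Bd H g k l i j := by
  unfold Bd at *
  omega

theorem four (H : Finset (Finset V)) (h3 : ∀ e ∈ H, e.card = 3)
    (hK : ∀ x y z w : V, tri H x y z = 0 ∨ tri H x y w = 0 ∨ tri H x z w = 0 ∨ tri H y z w = 0)
    (g : V → Fin 3) :
    Bd H g 0 1 1 0 ∧ Bd H g 0 1 0 2 ∧ Bd H g 0 1 2 1 ∧ Bd H g 0 2 1 0 := by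
  have hc : ∀ x, ((g x : Fin 3) : ℕ) < 3 := fun x => (g x).2
  refine ⟨?_, ?_, ?_, ?_⟩
  · exact bridge 0 1 1 0 (by decide) (by decide) 1000 (by norm_num) H h3 g P1.pt
      (fun _ _ _ _ _ _ _ _ _ _ _ _ _ _ _ => rfl)
      (P1.final (fun v => (g v : ℕ)) hc (tri H) (tri_le H) (tri_s1 H) (tri_s2 H) hK)
  · exact bridge 0 1 0 2 (by decide) (by decide) 1000 (by norm_num) H h3 g P2.pt
      (fun _ _ _ _ _ _ _ _ _ _ _ _ _ _ _ => rfl)
      (P2.final (fun v => (g v : ℕ)) hc (tri H) (tri_le H) (tri_s1 H) (tri_s2 H) hK)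
  · exact bridge 0 1 2 1 (by decide) (by decide) 1000 (by norm_num) H h3 g P3.pt
      (fun _ _ _ _ _ _ _ _ _ _ _ _ _ _ _ => rfl)
      (P3.final (fun v => (g v : ℕ)) hc (tri H) (tri_le H) (tri_s1 H) (tri_s2 H) hK)
  · exact bridge 0 2 1 0 (by decide) (by decide) 200000 (by norm_num) H h3 g P4.pt
      (fun _ _ _ _ _ _ _ _ _ _ _ _ _ _ _ => rfl)
      (P4.final (fun v => (g v : ℕ)) hc (tri H) (tri_le H) (tri_s1 H) (tri_s2 H) hK)

theorem all (H : Finset (Finset V)) (h3 : ∀ e ∈ H, e.card = 3)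
    (hK : ∀ x y z w : V, tri H x y z = 0 ∨ tri H x y w = 0 ∨ tri H x z w = 0 ∨ tri H y z w = 0)
    (g : V → Fin 3) (i j k l : Fin 3) (hij : i ≠ j) (hkl : k ≠ l) (hne : (i, j) ≠ (k, l)) :
    Bd H g i j k l := by
  obtain ⟨s, hs⟩ := exists_perm i j k l hij hkl hne
  obtain ⟨b1, b2, b3, b4⟩ := four H h3 hK (fun x => s (g x))
  have key : Bd H (fun x => s (g x)) (s i) (s j) (s k) (s l) := by
    simp only [List.mem_cons, Prod.mk.injEq, List.not_mem_nil, or_false] at hs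
    rcases hs with ⟨h1, h2, h3, h4⟩ | ⟨h1, h2, h3, h4⟩ | ⟨h1, h2, h3, h4⟩ | ⟨h1, h2, h3, h4⟩ |
      ⟨h1, h2, h3, h4⟩ | ⟨h1, h2, h3, h4⟩ | ⟨h1, h2, h3, h4⟩ | ⟨h1, h2, h3, h4⟩ <;>
      rw [h1, h2, h3, h4]
    · exact b1
    · exact b1.symm
    · exact b2
    · exact b2.symm
    · exact b3
    · exact b3.symm
    · exact b4
    · exact b4.symm
  unfold Bd at key ⊢
  rwa [kindE_perm, kindE_perm, innerE_perm] at key

end Pool.Agent.X45.Fk
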